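import Pool.Agent.W477.GM.Stms

/-!
# Separation and power set
-/

set_option linter.all false
set_option maxHeartbeats 1000000

namespace Pool.Agent.W477.GM.W499ZF2

open Pool.Agent.W477.GM

variable {P : Type 1} [PartialOrder P] [OrderTop P]

/-- A common support of finitely many names. -/
theorem supp_fin {S : SysData P} (hS : SysAx S) (hH : HsF P S) (v : ℕ → Nm P)
    (hv : ∀ i, HS S (v i)) (n : ℕ) :
    ∃ e, ∀ g, g ∈ S.fix e → ∀ i, i < n → ∀ p, feq (act g (v i)) (v i) p := by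
  induction n with
  | zero =>
    obtain ⟨e⟩ := hS.ne
    exact ⟨e, fun g _ i hi => absurd hi (Nat.not_lt_zero i)⟩
  | succ n ih =>
    obtain ⟨e, he⟩ := ih
    obtain ⟨e', he'⟩ := hH.supp (v n) (hv n)
    obtain ⟨e'', he''⟩ := hS.dir e e'
    refine ⟨e'', fun g hg i hi p => ?_⟩
    obtain ⟨h1, h2⟩ := he'' g hg
    rcases Nat.lt_succ_iff_lt_or_eq.1 hi with h | h
    · exact he g h1 i h p
    · subst h
      exact he' g h2 p

/-- The stage of a sequence and a family. -/
theorem stage {S : SysData P} (hH : HsF P S) (v : ℕ → Nm P) (hv : ∀ i, HS S (v i))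
    (κ : Type) (z : κ → Nm P) (hz : ∀ k, HS S (z k)) :
    ∃ a, (∀ i, Liv S a (v i)) ∧ ∀ k, Liv S a (z k) := by
  obtain ⟨a, ha⟩ := hH.livs ℕ v hv
  obtain ⟨b, hb⟩ := hH.livs κ z hz
  exact ⟨max a b, fun i => hH.liv_mono a _ _ (le_max_left _ _) (ha i),
    fun k => hH.liv_mono b _ _ (le_max_right _ _) (hb k)⟩

theorem sep (h : P_EQ) (h1 : P_ACT) (h2 : P_FC) (h3 : P_HS) (h4 : P_SET) (h5 : P_DEC)
    (S : SysData P) (hS : SysAx S) (φ : Fm) (m : ℕ) (hm : φ.bd ≤ m) (hm1 : 1 ≤ m)
    (v : ℕ → Nm P) (hv : ∀ i, HS S (v i)) (p : P) : Fc (HS S) (.axSep φ m) v p := by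
  have hE := h P
  have hA := h1 P
  have hF := h2 P (HS S)
  have hH := h3 P S hS
  obtain ⟨hD, _, hDm⟩ := h5 P S hS
  -- the children
  obtain ⟨κ, U, z, hvm⟩ : ∃ (κ : Type) (U : κ → P → Prop) (z : κ → Nm P), v m = .mk κ U z := by
    cases v m with
    | mk κ U z => exact ⟨κ, U, z, rfl⟩
  have hz : ∀ k, HS S (z k) := hH.child κ U z (hvm ▸ hv m)
  obtain ⟨e, he⟩ := supp_fin hS hH v hv (m + 1)
  obtain ⟨a, ha, hb⟩ := stage hH v hv κ z hz
  have hup : ∀ y, HS S y → ∀ i, HS S (Function.update v 0 y i) := by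
    intro y hy i
    by_cases hi : i = 0
    · subst hi
      simpa using hy
    · simpa [hi] using hv i
  obtain ⟨Y, hY, hYF⟩ := h4 P S hS κ z
    (fun y p => fmem y (v m) p ∧ Fc (HS S) φ (Function.update v 0 y) p) hz
    (fun y p q _ hq hp => ⟨hE.mmono _ _ _ _ hq hp.1, hF.mono _ _ _ _ hq hp.2⟩)
    (fun y p _ hp => ⟨hE.mdense _ _ _ fun q hq => by
        obtain ⟨r, hr, hr1, _⟩ := hp q hq
        exact ⟨r, hr, hr1⟩,
      hF.dense _ _ _ fun q hq => by
        obtain ⟨r, hr, _, hr2⟩ := hp q hq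
        exact ⟨r, hr, hr2⟩⟩)
    (fun y y' p _ _ hyy hp => ⟨hE.mcongr _ _ _ _ _ hyy (hE.refl _ _) hp.1,
      hF.congr _ _ _ _ (fun i => by
        by_cases hi : i = 0
        · subst hi
          simpa using hyy
        · simpa [hi] using hE.refl _ _) hp.2⟩)
    ⟨e, fun g hg y p hy hp => by
      have hgG := hS.fsub e g hg
      have hg' := he g hg
      refine ⟨hE.mcongr _ _ _ _ _ (hE.refl _ _) (hg' m (Nat.lt_succ_self m) _)
        ((hA.fmem g y (v m) p).2 hp.1), ?_⟩
      have q1 : Fc (HS S) φ (Function.update (fun i => if i < m then v i else v m) 0 y) p := by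
        refine (hF.bd φ _ _ p fun i hi => ?_).1 hp.2
        by_cases h0 : i = 0
        · subst h0
          simp
        · have : i < m := lt_of_lt_of_le hi hm
          simp [h0, this]
      have q2 := (hF.equiv g (fun x hx => hH.act g hgG x hx)
        (fun x hx => hH.act g⁻¹ (hS.inv g hgG) x hx) φ _ p).2 q1
      have q3 := hF.congr φ _ (Function.update (fun i => if i < m then v i else v m) 0
        (act g y)) (g p) (fun i => by
          by_cases h0 : i = 0
          · subst h0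
            simpa using hE.refl _ _
          · by_cases him : i < m
            · simpa [h0, him] using hg' i (by omega) _
            · simpa [h0, him] using hg' m (by omega) _) q2
      refine (hF.bd φ _ _ _ fun i hi => ?_).1 q3
      by_cases h0 : i = 0
      · subst h0
        simp
      · have : i < m := lt_of_lt_of_le hi hm
        simp [h0, this]⟩
    ⟨a, fun k p hp => ⟨hDm _ _ _ _ (hb k) (ha m) hp.1, hD _ _ _ _ (fun i => by
        by_cases hi : i = 0
        · subst hi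
          simpa using hb k
        · simpa [hi] using ha i) hp.2⟩⟩
    (fun y p _ hp => by
      have q1 := hp.1
      rw [hvm] at q1
      obtain ⟨r, hr, j, _, hj⟩ := q1 p le_rfl
      exact ⟨r, hr, j, hj⟩)
  unfold Fm.axSep
  rw [hF.ex]
  intro q hq
  refine ⟨q, le_rfl, Y, hY, ?_⟩
  intro y hy
  rw [hF.iff]
  intro r hr
  rw [hF.and]
  have e1 : Fc (HS S) (.mem 0 (m + 1)) (Function.update (Function.update v (m + 1) Y) 0 y) r ↔
      fmem y Y r := by
    show fmem _ _ r ↔ _
    simp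
  have e2 : Fc (HS S) (.mem 0 m) (Function.update (Function.update v (m + 1) Y) 0 y) r ↔
      fmem y (v m) r := by
    show fmem _ _ r ↔ _
    have hm0 : m ≠ 0 := by omega
    simp [hm0]
  have e3 : Fc (HS S) φ (Function.update (Function.update v (m + 1) Y) 0 y) r ↔
      Fc (HS S) φ (Function.update v 0 y) r := by
    refine hF.bd φ _ _ r fun i hi => ?_
    by_cases h0 : i = 0
    · subst h0
      simp
    · have h0' : i ≠ m + 1 := by omega
      simp [h0, h0']
  rw [e1, e2, e3]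
  exact hYF y r hy

theorem pow (h : P_EQ) (h1 : P_ACT) (h2 : P_FC) (h3 : P_HS) (h4 : P_SET) (h5 : P_DEC)
    (S : SysData P) (hS : SysAx S) (hPow : Pow S)
    (v : ℕ → Nm P) (hv : ∀ i, HS S (v i)) (p : P) : Fc (HS S) .axPow v p := by
  have hE := h P
  have hA := h1 P
  have hF := h2 P (HS S)
  have hH := h3 P S hS
  obtain ⟨hD, _, hDm⟩ := h5 P S hS
  obtain ⟨κ, z, hz, hcov⟩ := hPow (v 0) (hv 0)
  obtain ⟨e, he⟩ := hH.supp (v 0) (hv 0)
  obtain ⟨a, ha, hb⟩ := stage hH v hv κ z hz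
  have hFc : ∀ (u : ℕ → Nm P) p, Fc (HS S) (.all 3 (.imp (.mem 3 2) (.mem 3 0))) u p ↔
      ∀ y, HS S y → ∀ q, q ≤ p → fmem y (u 2) q → fmem y (u 0) q := by
    intro u p
    show (∀ y, HS S y → ∀ q, q ≤ p → fmem _ _ q → fmem _ _ q) ↔ _
    simp
  obtain ⟨Y, hY, hYF⟩ := h4 P S hS κ z
    (fun w p => ∀ y, HS S y → ∀ q, q ≤ p → fmem y w q → fmem y (v 0) q) hz
    (fun w p q _ hq hp y hy r hr => hp y hy r (hr.trans hq))
    (fun w p _ hp y hy q hq hyq => hE.mdense _ _ _ fun q' hq' => by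
      obtain ⟨r, hr, hr1⟩ := hp q' (hq'.trans hq)
      exact ⟨r, hr, hr1 y hy r le_rfl (hE.mmono _ _ _ _ (hr.trans hq') hyq)⟩)
    (fun w w' p _ _ hww hp y hy q hq hyq => hp y hy q hq
      (hE.mcongr _ _ _ _ _ (hE.refl _ _) (hE.symm _ _ _ (hE.mono _ _ _ _ hq hww)) hyq))
    ⟨e, fun g hg w p hw hp y hy q hq hyq => by
      have hgG := hS.fsub e g hg
      have y1 : act g (act g⁻¹ y) = y := by
        rw [← hA.mul, mul_inv_cancel, hA.one]
      have q1 : g (g.symm q) = q := g.apply_symm_apply q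
      have q2 : g.symm q ≤ p := by
        rw [← g.le_iff_le, q1]
        exact hq
      have m1 : fmem (act g⁻¹ y) w (g.symm q) := by
        rw [← hA.fmem g, y1, q1]
        exact hyq
      have m2 := hp (act g⁻¹ y) (hH.act _ (hS.inv g hgG) y hy) (g.symm q) q2 m1
      rw [← hA.fmem g, y1, q1] at m2
      exact hE.mcongr _ _ _ _ _ (hE.refl _ _) (he g hg q) m2⟩
    ⟨a, fun k p hp => by
      have q1 := (hFc (Function.update v 2 (z k)) p).2 (by simpa using hp)
      have q2 := hD _ _ _ a (fun i => by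
        by_cases hi : i = 2
        · subst hi
          simpa using hb k
        · simpa [hi] using ha i) q1
      have q3 := (hFc _ _).1 q2
      simpa using q3⟩
    (fun w p hw hp => hcov w p hw hp)
  unfold Fm.axPow
  rw [hF.ex]
  intro q hq
  refine ⟨q, le_rfl, Y, hY, ?_⟩
  intro w hw
  rw [hF.iff]
  intro r hr
  rw [hFc]
  have e1 : Fc (HS S) (.mem 2 1) (Function.update (Function.update v 1 Y) 2 w) r ↔
      fmem w Y r := by
    show fmem _ _ r ↔ _
    simp
  rw [e1]
  have e2 := hYF w r hw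
  simpa using e2

theorem zf2_holds (h : P_EQ) (h1 : P_ACT) (h2 : P_FC) (h3 : P_HS) (h4 : P_SET) (h5 : P_DEC) :
    P_ZF2 := by
  intro P _ _ S hS
  exact ⟨fun φ m hm hm1 v hv p => sep h h1 h2 h3 h4 h5 S hS φ m hm hm1 v hv p,
    fun hPow v hv p => pow h h1 h2 h3 h4 h5 S hS hPow v hv p⟩

end Pool.Agent.W477.GM.W499ZF2
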